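import Pool.Agent.Q42.CU.Normal
import Pool.Agent.Q49.MZ.Denef
import Pool.Agent.Q221.TenOrd.Main

/-!
# Triple systems over the ring `ℤ[1/24]`
-/

set_option autoImplicit false

namespace Pool.Agent.Q221.TS

open MvPolynomial Pool.Agent.Q223.MM Pool.Agent.Q42.CU

/-! ### Change of the ring of coefficients -/

section pts

variable {R A : Type} [CommRing R] [CommRing A] (φ : R →+* A)

theorem ev_hom {ρ ρ' : Type} (ψ : MvPolynomial ρ R →ₐ[R] MvPolynomial ρ' R) (x : ρ' → A)
    (F : MvPolynomial ρ R) :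
    eval₂ φ (fun i => eval₂ φ x (ψ (X i))) F = eval₂ φ x (ψ F) := by
  have h : eval₂Hom φ (fun i => eval₂ φ x (ψ (X i))) =
      (eval₂Hom φ x).comp (ψ : MvPolynomial ρ R →+* MvPolynomial ρ' R) := by
    apply MvPolynomial.ringHom_ext
    · intro r
      rw [eval₂Hom_C, RingHom.comp_apply]
      have h2 : (ψ : MvPolynomial ρ R →+* MvPolynomial ρ' R) (C r) = C r := ψ.commutes r
      rw [h2, eval₂Hom_C]
    · intro i
      rw [eval₂Hom_X', RingHom.comp_apply]
      rfl
  exact DFunLike.congr_fun h F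

/-- An isomorphism of polynomial rings gives a bijection of the points. -/
noncomputable def ptsE {ρ ρ' : Type} (ψ : MvPolynomial ρ R ≃ₐ[R] MvPolynomial ρ' R) :
    (ρ' → A) ≃ (ρ → A) where
  toFun x i := eval₂ φ x (ψ (X i))
  invFun x j := eval₂ φ x (ψ.symm (X j))
  left_inv x := by
    funext j
    beta_reduce
    have h := ev_hom φ ψ.toAlgHom x (ψ.symm (X j))
    refine h.trans ?_
    show eval₂ φ x (ψ (ψ.symm (X j))) = x j
    rw [AlgEquiv.apply_symm_apply, eval₂_X]
  right_inv x := by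
    funext j
    beta_reduce
    have h := ev_hom φ ψ.symm.toAlgHom x (ψ (X j))
    refine h.trans ?_
    show eval₂ φ x (ψ.symm (ψ (X j))) = x j
    rw [AlgEquiv.symm_apply_apply, eval₂_X]

theorem zeros_iso {ρ ρ' : Type} (ψ : MvPolynomial ρ R ≃ₐ[R] MvPolynomial ρ' R)
    (F : MvPolynomial ρ R) :
    Nat.card {x : ρ' → A // eval₂ φ x (ψ F) = 0} = Nat.card {x : ρ → A // eval₂ φ x F = 0} := by
  apply Nat.card_congr
  apply (ptsE φ ψ).subtypeEquiv
  intro x
  rw [show eval₂ φ x (ψ F) = eval₂ φ ((ptsE φ ψ) x) F from (ev_hom φ ψ.toAlgHom x F).symm]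

/-- base change of a homomorphism -/
noncomputable def bch {ρ ρ' : Type} (ψ : MvPolynomial ρ R →ₐ[R] MvPolynomial ρ' R) :
    MvPolynomial ρ A →ₐ[A] MvPolynomial ρ' A := aeval fun i => map φ (ψ (X i))

theorem bch_map {ρ ρ' : Type} (ψ : MvPolynomial ρ R →ₐ[R] MvPolynomial ρ' R)
    (F : MvPolynomial ρ R) : bch φ ψ (map φ F) = map φ (ψ F) := by
  have h : ((bch φ ψ : MvPolynomial ρ A →+* MvPolynomial ρ' A)).comp (map φ) =
      (map φ).comp (ψ : MvPolynomial ρ R →+* MvPolynomial ρ' R) := by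
    apply MvPolynomial.ringHom_ext
    · intro r
      rw [RingHom.comp_apply, RingHom.comp_apply, map_C]
      have h2 : (ψ : MvPolynomial ρ R →+* MvPolynomial ρ' R) (C r) = C r := ψ.commutes r
      have h3 : (bch φ ψ : MvPolynomial ρ A →+* MvPolynomial ρ' A) (C (φ r)) = C (φ r) :=
        (bch φ ψ).commutes (φ r)
      rw [h2, h3, map_C]
    · intro i
      rw [RingHom.comp_apply, RingHom.comp_apply, map_X]
      exact aeval_X _ _
  exact DFunLike.congr_fun h F

theorem bch_comp {ρ ρ' : Type} (ψ : MvPolynomial ρ R →ₐ[R] MvPolynomial ρ' R)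
    (χ : MvPolynomial ρ' R →ₐ[R] MvPolynomial ρ R) (h : ∀ F, χ (ψ F) = F) :
    (bch φ χ).comp (bch φ ψ) = AlgHom.id A _ := by
  apply MvPolynomial.algHom_ext
  intro i
  rw [AlgHom.comp_apply, AlgHom.id_apply]
  have h1 : bch φ ψ (X i) = map φ (ψ (X i)) := aeval_X _ _
  rw [h1, bch_map, h, map_X]

/-- base change of an isomorphism -/
noncomputable def bce {ρ ρ' : Type} (ψ : MvPolynomial ρ R ≃ₐ[R] MvPolynomial ρ' R) :
    MvPolynomial ρ A ≃ₐ[A] MvPolynomial ρ' A :=
  AlgEquiv.ofAlgHom (bch φ ψ.toAlgHom) (bch φ ψ.symm.toAlgHom)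
    (bch_comp φ _ _ fun F => ψ.apply_symm_apply F) (bch_comp φ _ _ fun F => ψ.symm_apply_apply F)

theorem bce_map {ρ ρ' : Type} (ψ : MvPolynomial ρ R ≃ₐ[R] MvPolynomial ρ' R)
    (F : MvPolynomial ρ R) : bce φ ψ (map φ F) = map φ (ψ F) := bch_map φ ψ.toAlgHom F

end pts

/-! ### Multiples of the variables -/

section diag

variable {R : Type} [CommRing R] {σ : Type}

/-- the substitution `x_i ↦ w_i x_i` -/
noncomputable def dg (w : σ → Rˣ) : MvPolynomial σ R ≃ₐ[R] MvPolynomial σ R :=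
  AlgEquiv.ofAlgHom (aeval fun i => C ((w i : Rˣ) : R) * X i)
    (aeval fun i => C (((w i)⁻¹ : Rˣ) : R) * X i)
    (by
      apply MvPolynomial.algHom_ext
      intro i
      rw [AlgHom.comp_apply, aeval_X, map_mul, aeval_X, ← algebraMap_eq, AlgHom.commutes,
        algebraMap_eq, ← mul_assoc, ← C_mul, Units.inv_mul, C_1, one_mul]
      rfl)
    (by
      apply MvPolynomial.algHom_ext
      intro i
      rw [AlgHom.comp_apply, aeval_X, map_mul, aeval_X, ← algebraMap_eq, AlgHom.commutes,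
        algebraMap_eq, ← mul_assoc, ← C_mul, Units.mul_inv, C_1, one_mul]
      rfl)

theorem dg_X (w : σ → Rˣ) (i : σ) : dg w (X i) = C ((w i : Rˣ) : R) * X i := aeval_X _ _

theorem dg_C (w : σ → Rˣ) (a : R) : dg w (C a) = C a := (dg w).commutes a

theorem dg_fix {τ : Type} (w : σ → Rˣ) (e : τ → σ) (h : ∀ i, w (e i) = 1)
    (g : MvPolynomial τ R) : dg w (rename e g) = rename e g := by
  have h1 : (dg w).toAlgHom.comp (rename e) = rename e := by
    apply MvPolynomial.algHom_ext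
    intro i
    rw [AlgHom.comp_apply, rename_X]
    show dg w (X (e i)) = X (e i)
    rw [dg_X, h, Units.val_one, C_1, one_mul]
  exact DFunLike.congr_fun h1 g

/-- `u f(x)`, the variable `u` is the last one -/
noncomputable def lu {n : ℕ} (f : MvPolynomial (Fin n) R) : MvPolynomial (Fin (n + 1)) R :=
  X (Fin.last n) * rename Fin.castSucc f

theorem map_lu {S : Type} [CommRing S] (φ : R →+* S) {n : ℕ} (f : MvPolynomial (Fin n) R) :
    map φ (lu f) = lu (map φ f) := by
  unfold lu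
  rw [map_mul, map_X, map_rename]

theorem map_stb' {S : Type} [CommRing S] (φ : R →+* S) {n : ℕ} (f : MvPolynomial (Fin n) R)
    (κ : ℕ) : map φ (stb f κ) = stb (map φ f) κ := by
  unfold stb yv zv
  rw [map_add, map_sum, map_rename]
  congr 1
  refine Finset.sum_congr rfl fun j _ => ?_
  rw [map_mul, map_X, map_X]

/-- the units `a` for `u` and for the `z_m` -/
noncomputable def wu (n κ : ℕ) (u : Rˣ) : Fin (n + 1 + (κ + κ)) → Rˣ :=
  assign (Fin.lastCases u fun _ => 1) (fun _ => 1) fun _ => u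

theorem dg_stb {n κ : ℕ} (u : Rˣ) (f : MvPolynomial (Fin n) R) :
    dg (wu n κ u) (stb (lu f) κ) = C (u : R) * stb (lu f) κ := by
  unfold stb lu
  rw [map_add, map_sum, map_mul, map_mul, rename_X, rename_rename, dg_X, dg_fix, mul_add,
    Finset.mul_sum]
  · congr 1
    · have h : wu n κ u (Fin.castAdd (κ + κ) (Fin.last n)) = u := by
        unfold wu
        rw [assign_x, Fin.lastCases_last]
      rw [h]
      ring
    · refine Finset.sum_congr rfl fun m _ => ?_
      rw [map_mul]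
      unfold yv zv
      rw [dg_X, dg_X]
      have h1 : wu n κ u (Fin.natAdd (n + 1) (Fin.castAdd κ m)) = 1 := by
        unfold wu
        rw [assign_y]
      have h2 : wu n κ u (Fin.natAdd (n + 1) (Fin.natAdd κ m)) = u := by
        unfold wu
        rw [assign_z]
      rw [h1, h2, Units.val_one, C_1]
      ring
  · intro i
    unfold wu
    rw [Function.comp_apply, assign_x, Fin.lastCases_castSucc]

/-- the unit `a` for the multipliers -/
noncomputable def wm (k r : ℕ) (u : Rˣ) : Fin (k + r) → Rˣ :=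
  Fin.addCases (fun _ => 1) fun _ => u⁻¹

theorem dg_Phi {k r : ℕ} (u : Rˣ) {a : R} (ha : (u : R) * a = 1) (E : Fin r → Finset (Fin k))
    (c : Fin r → R) : dg (wm k r u) (C (u : R) * Phi a E c) = Phi 1 E c := by
  have h1 : ∀ i, dg (wm k r u) (X (Fin.castAdd r i)) = X (Fin.castAdd r i) := by
    intro i
    rw [dg_X]
    unfold wm
    rw [Fin.addCases_left, Units.val_one, C_1, one_mul]
  have h2 : ∀ j, dg (wm k r u) (X (Fin.natAdd k j)) =
      C ((u⁻¹ : Rˣ) : R) * X (Fin.natAdd k j) := by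
    intro i
    rw [dg_X]
    unfold wm
    rw [Fin.addCases_right]
  unfold Phi
  rw [map_mul, dg_C, map_add, map_mul, dg_C, map_sum, map_sum, mul_add, ← mul_assoc, ← C_mul, ha]
  congr 1
  · congr 1
    refine Finset.sum_congr rfl fun i _ => ?_
    rw [map_pow, h1]
  · rw [Finset.mul_sum]
    refine Finset.sum_congr rfl fun j _ => ?_
    rw [map_mul, map_sub, map_sum, dg_C, h2, Finset.sum_congr rfl fun i _ => h1 i, ← mul_assoc,
      ← mul_assoc, ← C_mul, Units.mul_inv, C_1, one_mul]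

/-- **The normal form without denominators.** -/
theorem normal_lu (u : Rˣ) (hu : (u : R) = 24) {n : ℕ} (f : MvPolynomial (Fin n) R)
    (hf : f ∈ Cf (Fin n) (AddSubgroup.closure ({1} : Set R))) :
    ∃ κ₀ : ℕ, ∀ κ, κ₀ ≤ κ → ∃ (k r : ℕ) (E : Fin r → Finset (Fin k)) (c : Fin r → R), 0 < k ∧
      IsTriple {1} E c ∧ StEq (lu f) κ (Phi 1 E c) := by
  have hfu : lu f ∈ Cf _ (AddSubgroup.closure ({1} : Set R)) := by
    unfold lu
    have h1 : (rename Fin.castSucc f : MvPolynomial (Fin (n + 1)) R) ∈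
      Cf _ (AddSubgroup.closure ({1} : Set R)) := rename_Cf _ hf
    intro d
    classical
    rw [mul_comm, coeff_mul_X']
    split_ifs
    · exact h1 _
    · exact AddSubgroup.zero_mem _
  obtain ⟨κ₀, h⟩ := normal_gen (a := ((u⁻¹ : Rˣ) : R)) (by rw [← hu, Units.inv_mul])
    (S := {1}) rfl (lu f) hfu
  refine ⟨κ₀, fun κ hκ => ?_⟩
  obtain ⟨k, r, E, c, h1, h2, e, ψ, h3⟩ := h κ hκ
  refine ⟨k, r, E, c, h1, h2, e, ((dg (wu n κ u)).trans ψ).trans (dg (wm k r u)), ?_⟩
  rw [AlgEquiv.trans_apply, AlgEquiv.trans_apply, dg_stb, map_mul]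
  have h4 : ψ (C (u : R)) = C (u : R) := ψ.commutes _
  rw [h4, h3]
  exact dg_Phi u (Units.mul_inv u) E c

end diag

end Pool.Agent.Q221.TS
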