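import Pool.Agent.Q221.TS.Base

/-!
# Triple systems and zeta functions
-/

set_option autoImplicit false

namespace Pool.Agent.Q221.TS

open MvPolynomial Pool.Agent.Q223.MM Pool.Agent.Q42.CU Pool.Agent.W206.CU Pool.Agent.Y229.PA
open Pool.Agent.H628R4.TP (IsBFunction)
open Pool.Agent.W427.SMC (igusaZeta)
open Pool.Agent.Q49.MZ (Mild MildP DenefAt null_any denef_of_follow)
open Pool.Agent.Q221.TenOrd (MildS simple_of_follow)

/-- the ring `ℤ[1/24]` -/
abbrev Z24 : Type := Localization.Away (24 : ℤ)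

/-- the image of a polynomial over `ℤ` -/
noncomputable def inc {σ : Type} (F : MvPolynomial σ ℤ) : MvPolynomial σ Z24 :=
  map (algebraMap ℤ Z24) F

theorem inc_inj {σ : Type} : Function.Injective (inc (σ := σ)) :=
  map_injective _ (IsLocalization.injective Z24
    (powers_le_nonZeroDivisors_of_noZeroDivisors (by norm_num : (24 : ℤ) ≠ 0)))

/-- the unit `24` -/
noncomputable def u24 : Z24ˣ := (IsLocalization.Away.algebraMap_isUnit (S := Z24) (24 : ℤ)).unit

theorem u24_val : (u24 : Z24) = 24 := by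
  have h : (u24 : Z24) = algebraMap ℤ Z24 24 := IsUnit.unit_spec _
  rw [h, map_ofNat]

/-- the homomorphism to a ring in which `24` is a unit -/
noncomputable def toR {A : Type} [CommRing A] (h : IsUnit ((Int.castRingHom A) 24)) : Z24 →+* A :=
  IsLocalization.Away.lift (24 : ℤ) h

theorem toR_int {A : Type} [CommRing A] (h : IsUnit ((Int.castRingHom A) 24)) (z : ℤ) :
    toR h (algebraMap ℤ Z24 z) = (z : A) := IsLocalization.Away.lift_eq (24 : ℤ) h z

theorem toR_comp {A : Type} [CommRing A] (h : IsUnit ((Int.castRingHom A) 24)) :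
    (toR h).comp (algebraMap ℤ Z24) = Int.castRingHom A :=
  RingHom.ext fun z => toR_int h z

theorem unit_zmod {p : ℕ} (hp : p.Prime) (h5 : 5 ≤ p) (k : ℕ) :
    IsUnit ((Int.castRingHom (ZMod (p ^ k))) 24) := by
  have h1 : ((Int.castRingHom (ZMod (p ^ k))) 24) = ((24 : ℕ) : ZMod (p ^ k)) := by
    simp
  rw [h1, ZMod.isUnit_iff_coprime]
  apply Nat.Coprime.pow_right
  rw [Nat.coprime_comm, hp.coprime_iff_not_dvd]
  intro h
  have h2 : p ∣ 2 * 2 * 2 * 3 := by simpa using h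
  rcases (Nat.Prime.dvd_mul hp).1 h2 with h2 | h2
  · rcases (Nat.Prime.dvd_mul hp).1 h2 with h2 | h2
    · rcases (Nat.Prime.dvd_mul hp).1 h2 with h2 | h2 <;>
        exact absurd (Nat.le_of_dvd (by norm_num) h2) (by omega)
    · exact absurd (Nat.le_of_dvd (by norm_num) h2) (by omega)
  · exact absurd (Nat.le_of_dvd (by norm_num) h2) (by omega)

theorem unit_C : IsUnit ((Int.castRingHom ℂ) 24) := by
  rw [isUnit_iff_ne_zero]
  simp

theorem inc_eval {A : Type} [CommRing A] (h : IsUnit ((Int.castRingHom A) 24)) {σ : Type}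
    (F : MvPolynomial σ ℤ) (x : σ → A) : eval₂ (toR h) x (inc F) = aeval x F := by
  unfold inc
  rw [eval₂_map, toR_comp]
  rfl

theorem inc_C {σ : Type} (F : MvPolynomial σ ℤ) : map (toR unit_C) (inc F) = toC F := by
  unfold inc toC
  rw [map_map, toR_comp]

/-- `u f + ∑ y_m z_m` becomes `F` after an isomorphism over `ℤ[1/24]`. -/
def StZ {n m : ℕ} (f : MvPolynomial (Fin n) ℤ) (κ : ℕ) (F : MvPolynomial (Fin m) ℤ) : Prop :=
  StEq (lu (inc f)) κ (inc F)

theorem inc_stb {n κ : ℕ} (f : MvPolynomial (Fin n) ℤ) : inc (stb (lu f) κ) = stb (lu (inc f)) κ := by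
  unfold inc
  rw [map_stb', map_lu]

theorem numIn_eq {σ : Type} {p : ℕ} (hp : p.Prime) (h5 : 5 ≤ p) (k : ℕ) (F : MvPolynomial σ ℤ) :
    numIn (ZMod (p ^ k)) F =
      Nat.card {x : σ → ZMod (p ^ k) // eval₂ (toR (unit_zmod hp h5 k)) x (inc F) = 0} := by
  unfold numIn
  simp only [inc_eval]

/-- the densities -/
theorem StZ.dens {n m κ : ℕ} {f : MvPolynomial (Fin n) ℤ} {F : MvPolynomial (Fin m) ℤ}
    (h : StZ f κ F) {p : ℕ} (hp : p.Prime) (h5 : 5 ≤ p) (k : ℕ) :
    dens p F k = dens p (stb (lu f) κ) k := by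
  obtain ⟨e, ψ, hψ⟩ := h
  rw [← inc_stb] at hψ
  unfold W206.CU.dens
  rw [numIn_eq hp h5, numIn_eq hp h5, ← hψ, zeros_iso, Nat.card_fin, Nat.card_fin, e]

theorem StZ.bfun {n m κ : ℕ} {f : MvPolynomial (Fin n) ℤ} {F : MvPolynomial (Fin m) ℤ}
    (h : StZ f κ F) {b : Polynomial ℂ} (hb : IsBFunction (toC (stb (lu f) κ)) b) :
    IsBFunction (toC F) b := by
  obtain ⟨e, ψ, hψ⟩ := h
  rw [← inc_stb] at hψ
  have h1 := isBFunction_iso (bce (toR unit_C) ψ) hb
  rwa [← inc_C, bce_map, hψ, inc_C] at h1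

/-! ### The start -/

/-- the renaming of the variables -/
def ren (n κ : ℕ) : ((Fin n ⊕ Unit) ⊕ (Fin κ ⊕ Fin κ)) ≃ Fin (n + 1 + (κ + κ)) :=
  ((Equiv.sumCongr ((Equiv.sumCongr (Equiv.refl _) (finOneEquiv.symm)).trans finSumFinEquiv)
    finSumFinEquiv).trans finSumFinEquiv)

theorem ren_stab {n : ℕ} (κ : ℕ) (f : MvPolynomial (Fin n) ℤ) :
    renameEquiv ℤ (ren n κ) (stabS (uf f) κ) = stb (lu f) κ := by
  unfold stabS stb uf lu yv zv
  rw [renameEquiv_apply, map_add, map_sum, rename_rename, map_mul, map_mul, rename_X, rename_X,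
    rename_rename, rename_rename]
  congr 1
  refine Finset.sum_congr rfl fun j _ => ?_
  rw [map_mul, rename_X, rename_X]
  rfl

theorem follow_lu {n κ : ℕ} {f : MvPolynomial (Fin n) ℤ} (hf : f ≠ 0) :
    Follow f (Fin (n + 1 + (κ + κ))) κ (stb (lu f) κ) := by
  rw [← ren_stab]
  exact follow_stab hf _

theorem igusa_eq {V W : Type} [Fintype V] [Fintype W] (p : ℕ) [hp : Fact p.Prime]
    {F : MvPolynomial V ℤ} {G : MvPolynomial W ℤ} (h : ∀ k, dens p F k = dens p G k) {s : ℂ}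
    (hs : 0 < s.re) : igusaZeta p F s = igusaZeta p G s := by
  refine (hasSum_igusa p F hs).unique ?_
  simp only [h]
  exact hasSum_igusa p G hs

theorem StZ.igusa {n m κ : ℕ} {f : MvPolynomial (Fin n) ℤ} {F : MvPolynomial (Fin m) ℤ}
    (h : StZ f κ F) (p : ℕ) [hp : Fact p.Prime] (h5 : 5 ≤ p) {s : ℂ} (hs : 0 < s.re) :
    igusaZeta p F s = igusaZeta p (stb (lu f) κ) s :=
  igusa_eq p (h.dens hp.out h5) hs

end Pool.Agent.Q221.TS
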