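import Pool.Agent.Q221.TS.Int

/-!
# Triple systems: the reduction of the conjecture
-/

set_option autoImplicit false

namespace Pool.Agent.Q221.TS

open MvPolynomial Pool.Agent.Q223.MM Pool.Agent.Q42.CU Pool.Agent.W206.CU Pool.Agent.Y229.PA
open Pool.Agent.H628R4.TP (IsBFunction)
open Pool.Agent.W427.SMC (igusaZeta)
open Pool.Agent.Q49.MZ (Mild MildP DenefAt null_any denef_of_follow mild_of_follow)
open Pool.Agent.Q221.TenOrd (MildS simple_of_follow)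

/-- For every prime `p ≥ 5` the poles of Igusa's zeta function of `F` with real part greater than
`-N` are simple and have the real part `-1`. -/
def MildT (N : ℕ) {V : Type} [Fintype V] (F : MvPolynomial V ℤ) : Prop :=
  ∀ (p : ℕ) [Fact p.Prime], 5 ≤ p → ∀ W : ℂ → ℂ, MeromorphicOn W Set.univ →
    (∀ s : ℂ, 0 < s.re → W s = igusaZeta p F s) →
    ∀ s₁ : ℂ, -(N : ℝ) < s₁.re → meromorphicOrderAt W s₁ < 0 →
      s₁.re = -1 ∧ (((-1 : ℤ) : ℤ) : WithTop ℤ) ≤ meromorphicOrderAt W s₁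

/-- There is `c ≠ 0` such that `(s + 1) c(s)` satisfies a functional equation for `F`, and the real
parts of the roots of `c` are smaller than `-N`. -/
def MinE (N : ℕ) {V : Type} (F : MvPolynomial V ℤ) : Prop :=
  ∃ c : Polynomial ℂ, c ≠ 0 ∧
    IsBFunction (map (Int.castRingHom ℂ) F) ((Polynomial.X + 1) * c) ∧
    ∀ r ∈ c.roots, r.re < -(N : ℝ)

theorem mildT_of {n m κ N : ℕ} {f : MvPolynomial (Fin n) ℤ} (hf : f ≠ 0)
    {F : MvPolynomial (Fin m) ℤ} (h : StZ f κ F) (hN : N ≤ κ) : MildT N F := by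
  intro p _ h5 W hW hWp s₁ h1 hs
  have hNm : (N : ℝ) ≤ κ := by exact_mod_cast hN
  have h2 : -(κ : ℝ) < s₁.re := by linarith
  have hWp' : ∀ s : ℂ, 0 < s.re → W s = igusaZeta p (stb (lu f) κ) s := fun s hs =>
    (hWp s hs).trans (h.igusa p h5 hs)
  refine ⟨?_, simple_of_follow p (follow_lu hf) hW hWp' h2⟩
  rcases mild_of_follow p (follow_lu hf) hW hWp' hs with h3 | h3
  · exact h3
  · linarith

theorem minE_of {n m κ N : ℕ} {f : MvPolynomial (Fin n) ℤ} (hf : f ≠ 0)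
    {F : MvPolynomial (Fin m) ℤ} (h : StZ f κ F) {b : Polynomial ℂ} (hb0 : b ≠ 0)
    (hb : IsBFunction (toC f) b) (hN : ∀ r ∈ b.roots, r.re + N < κ) : MinE N F := by
  refine ⟨b.comp (Polynomial.X + Polynomial.C (κ : ℂ)), comp_ne_zero hb0 _,
    h.bfun (b_follow (follow_lu hf) hb), fun r hr => ?_⟩
  have h1 : r + κ ∈ b.roots := by
    rw [Polynomial.mem_roots hb0, Polynomial.IsRoot.def]
    have h2 := (Polynomial.mem_roots (comp_ne_zero hb0 _)).1 hr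
    rw [Polynomial.IsRoot.def, Polynomial.eval_comp, Polynomial.eval_add, Polynomial.eval_X,
      Polynomial.eval_C] at h2
    exact h2
  have h3 := hN _ h1
  rw [Complex.add_re, Complex.natCast_re] at h3
  linarith

/-! ### The transfer -/

theorem StZ.strongAt {n m κ : ℕ} {f : MvPolynomial (Fin n) ℤ} (hf : f ≠ 0)
    {F : MvPolynomial (Fin m) ℤ} (h : StZ f κ F) (hκ : 1 ≤ κ) (p : ℕ) [hp : Fact p.Prime]
    (h5 : 5 ≤ p) (hF : StrongAt p F) : StrongAt p f := by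
  refine follow_strong (follow_lu hf) hκ p fun Z hZ hZp s₀ b hb0 hb =>
    hF Z hZ (fun s hs => (hZp s hs).trans (h.igusa p h5 hs).symm) s₀ b hb0 (h.bfun hb)

theorem StZ.poincare {n m κ : ℕ} {f : MvPolynomial (Fin n) ℤ}
    {F : MvPolynomial (Fin m) ℤ} (h : StZ f κ F) (p : ℕ) [hp : Fact p.Prime] (h5 : 5 ≤ p) :
    W206.CU.poincare p F = W206.CU.poincare p (stb (lu f) κ) := by
  obtain ⟨e, ψ, hψ⟩ := h
  rw [← inc_stb] at hψ
  ext k
  rw [W206.CU.poincare, W206.CU.poincare, PowerSeries.coeff_mk, PowerSeries.coeff_mk]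
  have h1 := numIn_eq hp.out h5 k F
  have h2 := numIn_eq hp.out h5 k (stb (lu f) κ)
  rw [← hψ, zeros_iso, ← h2] at h1
  unfold numIn at h1
  rw [h1, Nat.card_fin, Nat.card_fin, e]

theorem StZ.denefAt {n m κ : ℕ} {f : MvPolynomial (Fin n) ℤ} (hf : f ≠ 0)
    {F : MvPolynomial (Fin m) ℤ} (h : StZ f κ F) (hκ : 1 ≤ κ) (p : ℕ) [hp : Fact p.Prime]
    (h5 : 5 ≤ p) (hF : DenefAt p F) : DenefAt p f := by
  refine denef_of_follow hf hκ (follow_lu hf) p fun T₀ r hr hP b hb => hF T₀ r hr ?_ b (h.bfun hb)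
  rw [h.poincare p h5]
  exact hP

theorem StZ.strongQ {n m κ : ℕ} {f : MvPolynomial (Fin n) ℚ} {N : ℕ} (hN : 0 < N)
    {g : MvPolynomial (Fin n) ℤ} (hg0 : g ≠ 0) (hg : map (Int.castRingHom ℚ) g = C (N : ℚ) * f)
    {F : MvPolynomial (Fin m) ℤ} (h : StZ g κ F) (hκ : 1 ≤ κ)
    (hF : StrongQ (map (Int.castRingHom ℚ) F)) : StrongQ f := by
  refine Pool.Agent.Q49.MZ.strongQ_of_follow hN hg hκ (follow_lu hg0) ?_
  obtain ⟨S, hS⟩ := hF
  refine ⟨S ∪ Finset.range 5, fun p _ hpS Z hZ hZp s₀ hs₀ b hb => ?_⟩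
  rw [Finset.mem_union, not_or, Finset.mem_range, not_lt] at hpS
  refine hS p hpS.1 Z hZ (fun s hs => ?_) s₀ hs₀ b ?_
  · rw [hZp s hs, Pool.Agent.Q49.MZ.zetaQ_int, Pool.Agent.Q49.MZ.zetaQ_int,
      h.igusa p hpS.2 hs]
  · rw [← toC_eq] at hb ⊢
    exact h.bfun hb

/-! ### The normal form over the integers -/

section gen

variable {R : Type} [CommRing R]

theorem map_Phi1 (φ : ℤ →+* R) {k r : ℕ} (E : Fin r → Finset (Fin k)) (c : Fin r → ℤ) :
    map φ (Phi 1 E c) = Phi 1 E fun j => φ (c j) := by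
  unfold Phi
  simp only [map_add, map_mul, map_sum, map_sub, map_pow, map_X, map_C, map_one]

theorem int_Cf {n : ℕ} (f : MvPolynomial (Fin n) ℤ) :
    map (Int.castRingHom R) f ∈ Cf (Fin n) (AddSubgroup.closure ({1} : Set R)) := by
  intro d
  have h1 : ((coeff d f : ℤ) : R) = (coeff d f) • (1 : R) := (zsmul_one _).symm
  have h2 : (1 : R) ∈ AddSubgroup.closure ({1} : Set R) :=
    AddSubgroup.subset_closure (Set.mem_singleton _)
  rw [coeff_map, eq_intCast, h1]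
  exact AddSubgroup.zsmul_mem _ h2 _

/-- **The normal form.** -/
theorem exists_gen [Nontrivial R] (u : Rˣ) (hu : (u : R) = 24) {n : ℕ}
    (f : MvPolynomial (Fin n) ℤ) :
    ∃ κ₀ : ℕ, ∀ κ, κ₀ ≤ κ → ∃ (k r : ℕ) (E : Fin r → Finset (Fin k)) (c : Fin r → ℤ), 0 < k ∧
      IsTriple {1} E c ∧
      StEq (lu (map (Int.castRingHom R) f)) κ (map (Int.castRingHom R) (Phi 1 E c)) := by
  classical
  obtain ⟨κ₀, h⟩ := normal_lu u hu (map (Int.castRingHom R) f) (int_Cf f)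
  refine ⟨κ₀, fun κ hκ => ?_⟩
  obtain ⟨k, r, E, c, h1, h2, h3⟩ := h κ hκ
  have hc : ∀ j, c j = 0 ∨ c j = 1 := by
    intro j
    rcases h2.1 j with ⟨-, h4⟩ | ⟨-, h4 | h4⟩
    · exact Or.inl h4
    · exact Or.inl h4
    · exact Or.inr h4
  set c' : Fin r → ℤ := fun j => if c j = 0 then 0 else 1 with hc'
  have e2 : ∀ j, c j = 0 → c' j = 0 := fun j hj => if_pos hj
  have e4 : ∀ j, c j ≠ 0 → c' j = 1 := fun j hj => if_neg hj
  have e1 : ∀ j, Int.castRingHom R (c' j) = c j := by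
    intro j
    by_cases h4 : c j = 0
    · rw [e2 j h4, h4, map_zero]
    · rw [e4 j h4, map_one]
      exact ((hc j).resolve_left h4).symm
  refine ⟨k, r, E, c', h1, ⟨fun j => ?_, fun i j hij hi => ?_⟩, ?_⟩
  · rcases h2.1 j with ⟨h5, h4⟩ | ⟨h5, h4 | h4⟩
    · exact Or.inl ⟨h5, e2 j h4⟩
    · exact Or.inr ⟨h5, Or.inl (e2 j h4)⟩
    · refine Or.inr ⟨h5, Or.inr (e4 j ?_)⟩
      rw [show c j = 1 from h4]
      exact one_ne_zero
  · refine h2.2 i j ?_ ?_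
    · rw [← e1 i, ← e1 j, hij]
    · intro h4
      exact hi (e2 i h4)
  · rw [map_Phi1]
    have e3 : (fun j => Int.castRingHom R (c' j)) = c := funext e1
    rw [e3]
    exact h3

end gen

theorem Phi_ne {k r : ℕ} (hk : 0 < k) (E : Fin r → Finset (Fin k)) (c : Fin r → ℤ) :
    Phi 1 E c ≠ 0 := by
  intro h0
  have h2 := Phi_eval (1 : ℤ) E c (Fin.addCases (Pi.single ⟨0, hk⟩ 1) fun _ => 0)
  rw [h0, map_zero] at h2
  simp only [Fin.addCases_left, Fin.addCases_right, zero_mul, Finset.sum_const_zero, add_zero,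
    one_mul] at h2
  rw [Finset.sum_eq_single ⟨0, hk⟩] at h2
  · rw [Pi.single_eq_same, one_pow] at h2
    exact zero_ne_one h2
  · intro j _ hj
    rw [Pi.single_eq_of_ne hj, zero_pow three_ne_zero]
  · intro h
    exact absurd (Finset.mem_univ _) h

theorem nontriv_Z24 : Nontrivial Z24 := by
  refine ⟨0, 1, fun h => ?_⟩
  have h4 := congrArg (toR unit_C) h
  rw [map_zero, map_one] at h4
  exact zero_ne_one h4

theorem inc_eq {σ : Type} (F : MvPolynomial σ ℤ) : inc F = map (Int.castRingHom Z24) F := by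
  unfold inc
  rw [Subsingleton.elim (algebraMap ℤ Z24) (Int.castRingHom Z24)]

theorem exists_stZ {n : ℕ} (f : MvPolynomial (Fin n) ℤ) :
    ∃ κ₀ : ℕ, ∀ κ, κ₀ ≤ κ → ∃ (k r : ℕ) (E : Fin r → Finset (Fin k)) (c : Fin r → ℤ), 0 < k ∧
      IsTriple {1} E c ∧ StZ f κ (Phi 1 E c) := by
  have := nontriv_Z24
  obtain ⟨κ₀, h⟩ := exists_gen u24 u24_val f
  refine ⟨κ₀, fun κ hκ => ?_⟩
  obtain ⟨k, r, E, c, h1, h2, h3⟩ := h κ hκ
  refine ⟨k, r, E, c, h1, h2, ?_⟩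
  unfold StZ
  rw [inc_eq, inc_eq]
  exact h3

theorem re_bdd (b : Polynomial ℂ) (N : ℕ) : ∃ M : ℕ, ∀ κ : ℕ, M ≤ κ → ∀ r ∈ b.roots, r.re + N < κ := by
  classical
  obtain ⟨M, hM⟩ := exists_nat_gt (∑ r ∈ b.roots.toFinset, |r.re| + N)
  refine ⟨M, fun κ hκ r hr => ?_⟩
  have h1 : |r.re| ≤ ∑ r ∈ b.roots.toFinset, |r.re| :=
    Finset.single_le_sum (f := fun r : ℂ => |r.re|) (fun _ _ => abs_nonneg _)
      (Multiset.mem_toFinset.2 hr)
  have h2 := le_abs_self r.re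
  have h3 : (M : ℝ) ≤ κ := by exact_mod_cast hκ
  linarith

/-- **Normal forms with mild singularities.** -/
theorem exists_phiZ (N : ℕ) {n : ℕ} (f : MvPolynomial (Fin n) ℤ) (hf : f ≠ 0) :
    ∃ κ₁ : ℕ, ∀ κ, κ₁ ≤ κ → ∃ (k r : ℕ) (E : Fin r → Finset (Fin k)) (c : Fin r → ℤ), 0 < k ∧
      IsTriple {1} E c ∧ StZ f κ (Phi 1 E c) ∧ 1 ≤ κ ∧ MildT N (Phi 1 E c) ∧
      ((∃ b : Polynomial ℂ, b ≠ 0 ∧ IsBFunction (map (Int.castRingHom ℂ) f) b) →
        MinE N (Phi 1 E c)) := by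
  obtain ⟨κ₀, h⟩ := exists_stZ f
  by_cases hb : ∃ b : Polynomial ℂ, b ≠ 0 ∧ IsBFunction (map (Int.castRingHom ℂ) f) b
  · obtain ⟨b, hb0, hb⟩ := hb
    obtain ⟨M, hM⟩ := re_bdd b N
    refine ⟨max κ₀ (max (max N 1) M), fun κ hκ => ?_⟩
    have h1 : κ₀ ≤ κ := (le_max_left _ _).trans hκ
    have h2 : max N 1 ≤ κ := ((le_max_left _ _).trans (le_max_right _ _)).trans hκ
    have h3 : M ≤ κ := ((le_max_right _ _).trans (le_max_right _ _)).trans hκ
    obtain ⟨k, r, E, c, h4, h5, h6⟩ := h κ h1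
    exact ⟨k, r, E, c, h4, h5, h6, (le_max_right _ _).trans h2,
      mildT_of hf h6 ((le_max_left _ _).trans h2), fun _ => minE_of hf h6 hb0 hb (hM κ h3)⟩
  · refine ⟨max κ₀ (max N 1), fun κ hκ => ?_⟩
    have h1 : κ₀ ≤ κ := (le_max_left _ _).trans hκ
    have h2 : max N 1 ≤ κ := (le_max_right _ _).trans hκ
    obtain ⟨k, r, E, c, h4, h5, h6⟩ := h κ h1
    exact ⟨k, r, E, c, h4, h5, h6, (le_max_right _ _).trans h2,
      mildT_of hf h6 ((le_max_left _ _).trans h2), fun h => absurd h hb⟩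

end Pool.Agent.Q221.TS
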